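import Pool.Agent.W95.BK.Stm

/-!
# Project BK: the Green function
-/

set_option autoImplicit false

open Polynomial Topology Filter

namespace Pool.Agent.W397.BK

open Pool.Agent.W95.BK

universe u

section

variable {K : Type u} [NontriviallyNormedField K]

lemma BAsum_le (x : BA K) {ι : Type} (s : Finset ι) (f : ι → K[X]) :
    x (∑ i ∈ s, f i) ≤ ∑ i ∈ s, x (f i) := by
  classical
  induction s using Finset.induction_on with
  | empty => simp [BA.map_zero]
  | insert i s hi ih =>
    rw [Finset.sum_insert hi, Finset.sum_insert hi]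
    have h1 := x.map_add' (f i) (∑ i ∈ s, f i)
    have h2 := x.nonneg' (f i)
    have h3 := x.nonneg' (∑ i ∈ s, f i)
    exact h1.trans (max_le (by linarith) (by linarith))

/-- sum of the norms of the coefficients -/
noncomputable def cn (N : ℕ) (h : K[X]) : ℝ := ∑ i ∈ Finset.range (N + 1), ‖h.coeff i‖

lemma cn_nonneg (N : ℕ) (h : K[X]) : 0 ≤ cn N h := Finset.sum_nonneg fun _ _ => norm_nonneg _

lemma hom_le (x : BA K) (N : ℕ) (h u v : K[X]) {m : ℝ} (hu : x u ≤ m) (hv : x v ≤ m) :
    x (hom N h u v) ≤ cn N h * m ^ N := by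
  unfold hom cn
  refine (BAsum_le x _ _).trans ?_
  rw [Finset.sum_mul]
  apply Finset.sum_le_sum
  intro i hi
  have hi' : i ≤ N := by have := Finset.mem_range.1 hi; omega
  have e : x (C (h.coeff i) * u ^ i * v ^ (N - i)) = ‖h.coeff i‖ * x u ^ i * x v ^ (N - i) := by
    have e1 := x.map_mul' (C (h.coeff i) * u ^ i) (v ^ (N - i))
    have e2 := x.map_mul' (C (h.coeff i)) (u ^ i)
    have e3 := x.map_C' (h.coeff i)
    rw [e1, e2, e3]
    have e4 := BA.map_pow x u i
    have e5 := BA.map_pow x v (N - i)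
    rw [e4, e5]
  rw [e, mul_assoc]
  apply mul_le_mul_of_nonneg_left _ (norm_nonneg _)
  have hm : m ^ N = m ^ i * m ^ (N - i) := by rw [← pow_add]; congr 1; omega
  rw [hm]
  exact mul_le_mul (pow_le_pow_left₀ (x.nonneg' _) hu _) (pow_le_pow_left₀ (x.nonneg' _) hv _)
    (pow_nonneg (x.nonneg' _) _) (pow_nonneg ((x.nonneg' _).trans hu) _)

lemma low {P Q : K[X]} {d : ℕ} (hP : P.natDegree ≤ d) (hQ : Q.natDegree ≤ d)
    (cop : IsCoprime P Q) : ∃ (N : ℕ) (c : ℝ), 0 ≤ c ∧ ∀ (x : BA K) (u v : K[X]) (m : ℝ),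
      x u ≤ m → x v ≤ m →
      x v ^ (N + d) ≤ c * m ^ N * max (x (hom d P u v)) (x (hom d Q u v)) := by
  obtain ⟨A, B, hAB⟩ := cop
  set N : ℕ := max A.natDegree B.natDegree with hN
  refine ⟨N, cn N A + cn N B, add_nonneg (cn_nonneg _ _) (cn_nonneg _ _),
    fun x u v m hu hv => ?_⟩
  set M : ℝ := max (x (hom d P u v)) (x (hom d Q u v)) with hM
  have hm : 0 ≤ m := (x.nonneg' _).trans hu
  have e1 : v ^ (N + d) = hom N A u v * hom d P u v + hom N B u v * hom d Q u v := by
    rw [← hom_mul (le_max_left _ _) hP, ← hom_mul (le_max_right _ _) hQ, ← hom_add, hAB]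
    have := hom_monomial (K := K) (N := N + d) (i := 0) (Nat.zero_le _) 1 u v
    rw [monomial_zero_left, C_1, pow_zero, mul_one, one_mul, Nat.sub_zero] at this
    rw [this]
  have e2 : x v ^ (N + d) = x (v ^ (N + d)) := (BA.map_pow x v _).symm
  rw [e2, e1]
  have h1 := x.map_add' (hom N A u v * hom d P u v) (hom N B u v * hom d Q u v)
  have h2 := x.map_mul' (hom N A u v) (hom d P u v)
  have h3 := x.map_mul' (hom N B u v) (hom d Q u v)
  have h4 : x.toFun (hom N A u v * hom d P u v) ≤ (cn N A * m ^ N) * M := by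
    rw [h2]
    exact mul_le_mul (hom_le x N A u v hu hv) (le_max_left _ _) (x.nonneg' _)
      (mul_nonneg (cn_nonneg _ _) (pow_nonneg hm _))
  have h5 : x.toFun (hom N B u v * hom d Q u v) ≤ (cn N B * m ^ N) * M := by
    rw [h3]
    exact mul_le_mul (hom_le x N B u v hu hv) (le_max_right _ _) (x.nonneg' _)
      (mul_nonneg (cn_nonneg _ _) (pow_nonneg hm _))
  have hM0 : 0 ≤ M := (x.nonneg' _).trans (le_max_left _ _)
  have h6 : 0 ≤ cn N A * m ^ N * M := mul_nonneg (mul_nonneg (cn_nonneg _ _) (pow_nonneg hm _)) hM0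
  have h7 : 0 ≤ cn N B * m ^ N * M := mul_nonneg (mul_nonneg (cn_nonneg _ _) (pow_nonneg hm _)) hM0
  refine h1.trans (max_le ?_ ?_)
  · nlinarith
  · nlinarith

lemma natDegree_hom_rev (d : ℕ) (P : K[X]) : (hom d P 1 X).natDegree ≤ d := by
  have := natDegree_hom_le (N := d) (m := 1) P (a := 1) (b := X) (by simp) natDegree_X_le
  omega

lemma hom_rev (d : ℕ) (P u v : K[X]) : hom d (hom d P 1 X) v u = hom d P u v := by
  have e : hom d P 1 X = ∑ i ∈ Finset.range (d + 1), monomial (d - i) (P.coeff i) := by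
    unfold hom
    apply Finset.sum_congr rfl
    intro i _
    rw [one_pow, mul_one, C_mul_X_pow_eq_monomial]
  rw [e, hom_sum]
  unfold hom
  apply Finset.sum_congr rfl
  intro i hi
  have hi' : i ≤ d := by have := Finset.mem_range.1 hi; omega
  have := hom_monomial (N := d) (i := d - i) (Nat.sub_le _ _) (P.coeff i) v u
  unfold hom at this
  rw [this]
  have e2 : d - (d - i) = i := by omega
  rw [e2]
  ring

lemma max_pos_of_cop (x : BA K) {u v : K[X]} (h : IsCoprime u v) : 0 < max (x u) (x v) := by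
  by_contra hcon
  rw [not_lt] at hcon
  obtain ⟨a, b, hab⟩ := h
  have hu : x.toFun u = 0 := le_antisymm ((le_max_left _ _).trans hcon) (x.nonneg' _)
  have hv : x.toFun v = 0 := le_antisymm ((le_max_right _ _).trans hcon) (x.nonneg' _)
  have h1 := x.map_add' (a * u) (b * v)
  have h2 := x.map_mul' a u
  have h3 := x.map_mul' b v
  have h4 : x.toFun 1 = 1 := BA.map_one x
  rw [hab, h2, h3, hu, hv, mul_zero, mul_zero, max_self, h4] at h1
  norm_num at h1

lemma key [IsAlgClosed K] (R : RMap K) : ∃ c : ℝ, 1 ≤ c ∧ ∀ (x : BA K) (u v : K[X]),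
    IsCoprime u v → 0 < max (x (hom R.d R.P u v)) (x (hom R.d R.Q u v)) ∧
      max (x (hom R.d R.P u v)) (x (hom R.d R.Q u v)) ≤ c * max (x u) (x v) ^ R.d ∧
      max (x u) (x v) ^ R.d ≤ c * max (x (hom R.d R.P u v)) (x (hom R.d R.Q u v)) := by
  have hP : R.P.natDegree ≤ R.d := R.deg_eq ▸ le_max_left _ _
  have hQ : R.Q.natDegree ≤ R.d := R.deg_eq ▸ le_max_right _ _
  obtain ⟨N1, c1, hc1, H1⟩ := low hP hQ R.cop
  obtain ⟨N2, c2, hc2, H2⟩ := low (natDegree_hom_rev R.d R.P) (natDegree_hom_rev R.d R.Q)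
    (hom_cop R.cop R.deg_eq (isCoprime_one_left : IsCoprime (1 : K[X]) X))
  set c : ℝ := 1 + c1 + c2 + cn R.d R.P + cn R.d R.Q with hc
  have hcP := cn_nonneg R.d R.P
  have hcQ := cn_nonneg R.d R.Q
  refine ⟨c, by linarith, fun x u v huv => ?_⟩
  set m : ℝ := max (x u) (x v) with hm
  set M : ℝ := max (x (hom R.d R.P u v)) (x (hom R.d R.Q u v)) with hM
  have hm0 : 0 < m := max_pos_of_cop x huv
  have hM0 : 0 ≤ M := (x.nonneg' _).trans (le_max_left _ _)
  have hmu : x u ≤ m := le_max_left _ _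
  have hmv : x v ≤ m := le_max_right _ _
  have hlow : m ^ R.d ≤ c * M := by
    rcases le_total (x u) (x v) with h | h
    · have e : m = x v := max_eq_right h
      have h1 := H1 x u v m hmu hmv
      rw [← e, pow_add] at h1
      have hp : 0 < m ^ N1 := pow_pos hm0 _
      have h2 : m ^ R.d ≤ c1 * M := by
        by_contra hcon
        rw [not_le] at hcon
        have := mul_lt_mul_of_pos_left hcon hp
        nlinarith
      nlinarith
    · have e : m = x u := max_eq_left h
      have h1 := H2 x v u m hmv hmu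
      rw [hom_rev, hom_rev, ← e, pow_add] at h1
      have hp : 0 < m ^ N2 := pow_pos hm0 _
      have h2 : m ^ R.d ≤ c2 * M := by
        by_contra hcon
        rw [not_le] at hcon
        have := mul_lt_mul_of_pos_left hcon hp
        nlinarith
      nlinarith
  have hmd : 0 < m ^ R.d := pow_pos hm0 _
  refine ⟨?_, ?_, hlow⟩
  · by_contra hcon
    have : M = 0 := le_antisymm (not_lt.1 hcon) hM0
    rw [this, mul_zero] at hlow
    linarith
  · refine max_le ?_ ?_
    · refine (hom_le x R.d R.P u v hmu hmv).trans ?_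
      apply mul_le_mul_of_nonneg_right _ hmd.le
      linarith
    · refine (hom_le x R.d R.Q u v hmu hmv).trans ?_
      apply mul_le_mul_of_nonneg_right _ hmd.le
      linarith

end

theorem green : S_GREEN.{u} := by
  intro K _ _ _ R hd
  obtain ⟨c, hc, H⟩ := key R
  set L : ℝ := Real.log c with hL
  have hL0 : 0 ≤ L := Real.log_nonneg hc
  have hdp : (0 : ℝ) < R.d := by exact_mod_cast (by omega : 0 < R.d)
  have hd2 : (2 : ℝ) ≤ R.d := by exact_mod_cast hd
  refine ⟨L + 1, by linarith, fun x => ?_⟩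
  set M : ℕ → ℝ := fun n => max (x (R.iter n).P) (x (R.iter n).Q) with hM
  have hMs : ∀ n, 0 < M n ∧ 0 < M (n + 1) ∧ M (n + 1) ≤ c * M n ^ R.d ∧
      M n ^ R.d ≤ c * M (n + 1) := by
    intro n
    obtain ⟨h1, h2, h3⟩ := H x (R.iter n).P (R.iter n).Q (R.iter n).cop
    exact ⟨max_pos_of_cop x (R.iter n).cop, h1, h2, h3⟩
  set a : ℕ → ℝ := fun n => Real.log (M n) / (R.d : ℝ) ^ n with ha
  have hstep : ∀ n, dist (a n) (a (n + 1)) ≤ L / R.d * (1 / (R.d : ℝ)) ^ n := by
    intro n
    obtain ⟨p1, p2, p3, p4⟩ := hMs n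
    have l1 : Real.log (M (n + 1)) ≤ L + R.d * Real.log (M n) := by
      have := Real.log_le_log p2 p3
      rw [Real.log_mul (by linarith) (pow_pos p1 _).ne', Real.log_pow] at this
      exact this
    have l2 : R.d * Real.log (M n) ≤ L + Real.log (M (n + 1)) := by
      have := Real.log_le_log (pow_pos p1 _) p4
      rw [Real.log_mul (by linarith) p2.ne', Real.log_pow] at this
      exact this
    have e : a n - a (n + 1) = (R.d * Real.log (M n) - Real.log (M (n + 1))) / (R.d : ℝ) ^ (n + 1) := by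
      simp only [ha]
      rw [pow_succ]
      field_simp
    have e2 : L / R.d * (1 / (R.d : ℝ)) ^ n = L / (R.d : ℝ) ^ (n + 1) := by
      rw [pow_succ, one_div, inv_pow]
      field_simp
    rw [Real.dist_eq, e, e2, abs_div, abs_of_pos (pow_pos hdp (n + 1))]
    apply div_le_div_of_nonneg_right _ (pow_pos hdp _).le
    rw [abs_le]
    constructor <;> linarith
  have hr : 1 / (R.d : ℝ) < 1 := by
    rw [div_lt_one hdp]; linarith
  obtain ⟨l, hl⟩ := cauchySeq_tendsto_of_complete (cauchySeq_of_le_geometric _ _ hr hstep)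
  have hgr : gr R x = l := hl.limUnder_eq
  have hbd : ∀ n, |a n - l| ≤ L / (R.d : ℝ) ^ n := by
    intro n
    have h1 := dist_le_of_le_geometric_of_tendsto _ _ hr hstep hl n
    rw [Real.dist_eq] at h1
    refine h1.trans ?_
    have e : L / R.d * (1 / (R.d : ℝ)) ^ n / (1 - 1 / (R.d : ℝ)) =
        L / (R.d : ℝ) ^ n * (1 / (R.d - 1)) := by
      have h2 : (R.d : ℝ) - 1 ≠ 0 := by linarith
      have h3 : 1 - 1 / (R.d : ℝ) = (R.d - 1) / R.d := by field_simp
      rw [h3, one_div, inv_pow]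
      field_simp
    rw [e]
    apply mul_le_of_le_one_right (by positivity)
    rw [div_le_one (by linarith)]
    linarith
  refine ⟨?_, fun n => ⟨(hMs n).1, ?_⟩⟩
  · have h1 := hbd 0
    have e : a 0 = Real.log (max 1 (x X)) := by
      simp only [ha, hM, pow_zero, div_one]
      have e1 : (R.iter 0).P = X := rfl
      have e2 : (R.iter 0).Q = 1 := rfl
      rw [e1, e2]
      have e3 : x.toFun 1 = 1 := BA.map_one x
      rw [e3, max_comm]
    rw [e, pow_zero, div_one, abs_sub_comm] at h1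
    rw [hgr]
    linarith
  · rw [hgr]
    refine (hbd n).trans ?_
    apply div_le_div_of_nonneg_right _ (pow_pos hdp _).le
    linarith

theorem main : S_ITER.{u} → S_VAL.{u} → S_GREEN.{u} := fun _ _ => green

end Pool.Agent.W397.BK
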